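import Mathlib
import Pool.Agent.W926.PS.Base

/-!
PS-COL: equal labels give collisions.
-/

set_option autoImplicit false

namespace Pool.Agent.W397.PS

open Finset W926.PS

theorem chain (y : Fin 6 → Bool) (m n : ℕ) (hm : m ≤ n) (hn : n < 6)
    (h : ∀ g : Fin 5, m ≤ (g : ℕ) → (g : ℕ) < n → y g.castSucc = y g.succ) :
    y ⟨m, by omega⟩ = y ⟨n, hn⟩ := by
  induction n, hm using Nat.le_induction with
  | base => rfl
  | succ n hmn ih =>
    have h1 := ih (by omega) (fun g h1 h2 => h g h1 (by omega))
    have h2 := h ⟨n, by omega⟩ hmn (by simp)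
    rw [h1]
    exact h2

theorem col (hU : S_UMIN) : S_COL := by
  intro r a y p hS i k hik hl
  have hp : p i = p k := congrArg Prod.fst hl
  have hb : ∀ e, (if e < (p i).2 then y i.castSucc (p i).1 e else false) =
      (if e < (p k).2 then y k.castSucc (p k).1 e else false) :=
    fun e => congrFun (congrArg Prod.snd hl) e
  rw [← hp] at hb
  have hb' : ∀ e, e < (p i).2 → y i.castSucc (p i).1 e = y k.castSucc (p i).1 e := by
    intro e he
    have := hb e
    rwa [if_pos he, if_pos he] at this
  obtain ⟨hi1, hi2, hi3⟩ := hS i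
  obtain ⟨hk1, hk2, hk3⟩ := hS k
  rw [← hp] at hk1 hk2 hk3
  have fi := FD0_iff.1 hi1
  have fk := FD0_iff.1 hk1
  refine ⟨fi.1, fk.1, ?_, ?_, hi2, hk2, hi3, hk3⟩
  · -- a block before `j` in which the two points differ
    obtain ⟨h0, h01, h02, h03⟩ := hU r a y p hS i k hik hp
    obtain ⟨h, hh, hmin⟩ := (univ.filter fun h : Fin 5 => i ≤ h ∧ h < k).exists_min_image
      (fun h => nrk (p h)) ⟨h0, by simp [h01.le, h02]⟩
    rw [mem_filter] at hh
    have hlt : nrk (p h) < nrk (p i) := by
      have := hmin h0 (by simp [h01.le, h02])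
      omega
    have hstrict : ∀ g : Fin 5, i ≤ g → g < k → g ≠ h → nrk (p h) < nrk (p g) := by
      intro g hg1 hg2 hgh
      have h1 := hmin g (by simp [hg1, hg2])
      refine lt_of_le_of_ne h1 fun heq => ?_
      have hpe : p h = p g := nrk_inj heq
      rcases lt_or_gt_of_ne hgh with h2 | h2
      · obtain ⟨u, hu1, hu2, hu3⟩ := hU r a y p hS g h h2 hpe.symm
        have h3 := hmin u (by simp [hg1.trans hu1.le, hu2.trans hh.2.2])
        rw [← hpe] at hu3
        omega
      · obtain ⟨u, hu1, hu2, hu3⟩ := hU r a y p hS h g h2 hpe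
        have h3 := hmin u (by simp [hh.2.1.trans hu1.le, hu2.trans hg2])
        omega
    have hagree : ∀ g : Fin 5, i ≤ g → g < k → g ≠ h →
        y g.castSucc (p h).1 (p h).2 = y g.succ (p h).1 (p h).2 := by
      intro g hg1 hg2 hgh
      apply (hS g).1.1
      right
      exact ⟨rfl, hstrict g hg1 hg2 hgh⟩
    have c1 : y i.castSucc (p h).1 (p h).2 = y h.castSucc (p h).1 (p h).2 := by
      have := chain (fun m => y m (p h).1 (p h).2) i h hh.2.1 (by omega) (by
        intro g h1 h2
        have h3 : g < h := h2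
        exact hagree g h1 (h3.trans hh.2.2) h3.ne)
      exact this
    have c2 : y h.succ (p h).1 (p h).2 = y k.castSucc (p h).1 (p h).2 := by
      have := chain (fun m => y m (p h).1 (p h).2) (h + 1) k hh.2.2 (by omega) (by
        intro g h1 h2
        have h3 : h < g := by
          rw [Fin.lt_def]; omega
        exact hagree g (hh.2.1.trans h3.le) h2 h3.ne')
      exact this
    have hne : y i.castSucc (p h).1 (p h).2 ≠ y k.castSucc (p h).1 (p h).2 := by
      rw [c1, ← c2, (hS h).2.1, (hS h).2.2]
      decide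
    refine ⟨(p h).1, ?_, ?_⟩
    · rcases nrk_lt_iff.1 hlt with h1 | ⟨h1, h2⟩
      · exact h1
      · exfalso
        apply hne
        rw [h1]
        exact hb' _ h2
    · intro h1
      exact hne (by rw [h1])
  · intro e he
    refine ⟨fi.2.1 e he, hb' e he, ?_⟩
    rw [hb' e he]
    exact fk.2.1 e he

end Pool.Agent.W397.PS
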